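import Pool.Agent.D0H6.TC.Gen

/-!
# Mazur's conjecture for cyclic triple covers `w³ = f(z)`

Let `f ∈ ℚ[z₁, …, z_n]` have degree at most `3` on all the lines in `n` linearly independent
directions, for instance degree at most `3` in each variable (Calabi–Yau triple covers of `(ℙ¹)ⁿ`,
for `n = 2` K3 surfaces), and let `X` be the variety `w³ = f(z)`.

(1) If `X(ℚ)` is Zariski dense in `X`, then `X(ℚ)` is dense in `X(ℝ)`: there is a nonzero
polynomial `P` such that `X(ℚ)` is dense in `X(ℝ)` if `P` does not vanish at one rational point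
of `X`.

(2) An explicit form: one rational point with a chain of nondegenerate lines suffices.

(3) For arbitrary polynomials `a, b, c, g` in `n` variables the variety
`w³ = a(z) + b(z) t + c(z) t² + g(z)³ t³` has dense rational points, if the covariants at infinity
do not degenerate at all the `z`.

(4) Products: for the varieties `w³ = c ∏ f_i(x_i)^{e_i}` with `deg f_i ≤ 3` the closure of `X(ℚ)`
is always the set of the real points over a finite union of rational coordinate subspaces, and so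
semialgebraic over `ℚ`.

(5) Surfaces `w³ = f(x, y)` of degree at most `3` in `x` and in `y`: the rational points with
`w ≠ 0` are dense in `X(ℝ)`, or their closure is the union of the real points of finitely many
fibres of the two elliptic fibrations, a finite set and the closure of the set of the rational
points which are degenerate in both directions.
-/

set_option autoImplicit false

namespace Pool.Agent.Results.MP_42de19_nt.CyclicTripleCovers

open MvPolynomial Pool.Agent.D0H6.TC Pool.Agent.H581R2 Pool.Agent.TH729.SQ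

/-- Semialgebraic sets defined over `ℚ`: the finite unions of sets
`{p = 0, q₁ > 0, …, q_k > 0}`, where `p` and the `qᵢ` are polynomials with rational
coefficients. -/
def Semialgebraic {n : ℕ} (S : Set (Fin n → ℝ)) : Prop :=
  ∃ (m : ℕ) (P : Fin m → MvPolynomial (Fin n) ℚ) (G : Fin m → Finset (MvPolynomial (Fin n) ℚ)),
    S = {x : Fin n → ℝ | ∃ j : Fin m, (aeval x (P j) : ℝ) = 0 ∧
      ∀ g ∈ G j, (0 : ℝ) < aeval x g}

/-- The rational points of the variety `w³ = f(z)` with `z ∈ D`, as real points; `w` is the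
coordinate `0`. -/
def ratPts {n : ℕ} (f : MvPolynomial (Fin n) ℚ) (D : Set (Fin n → ℚ)) : Set (Fin (n + 1) → ℝ) :=
  {x | ∃ u : Fin (n + 1) → ℚ, (fun k => u k.succ) ∈ D ∧ u 0 ^ 3 = eval (fun k => u k.succ) f ∧
    x = fun i => (u i : ℝ)}

/-- The real points of the variety `w³ = f(z)`. -/
def realPts {n : ℕ} (f : MvPolynomial (Fin n) ℚ) : Set (Fin (n + 1) → ℝ) :=
  {x | x 0 ^ 3 = aeval (fun k => x k.succ) f}

theorem Semialgebraic.sa {n : ℕ} {S : Set (Fin n → ℝ)} (h : Semialgebraic S) : SA S := by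
  obtain ⟨m, P, G, rfl⟩ := h
  refine SAP.exists_fin fun j => SAP.and (SAP.eq_zero (PF.aeval (P j))) ?_
  exact SAP.forall_mem (G j) fun g _ => SAP.pos (PF.aeval g)

theorem ratPts_eq {n : ℕ} (f : MvPolynomial (Fin n) ℚ) (D : Set (Fin n → ℚ)) :
    ratPts f D = rl {u : Fin (n + 1) → ℚ | (fun k => u k.succ) ∈ D ∩ Cb f ∧
      u 0 ^ 3 = eval (fun k => u k.succ) f} := by
  ext x
  constructor
  · rintro ⟨u, h1, h2, rfl⟩
    exact ⟨u, ⟨⟨h1, u 0, h2⟩, h2⟩, rfl⟩
  · rintro ⟨u, ⟨h1, h2⟩, rfl⟩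
    exact ⟨u, h1.1, h2, rfl⟩

theorem closure_ratPts {n : ℕ} (f : MvPolynomial (Fin n) ℚ) (D : Set (Fin n → ℚ)) :
    closure (ratPts f D) =
      {x | (fun k => x k.succ) ∈ closure (rl (D ∩ Cb f)) ∧ x ∈ realPts f} := by
  rw [ratPts_eq, graph_closure f (D ∩ Cb f) Set.inter_subset_right]
  rfl

theorem closure_of_dense {n : ℕ} {f : MvPolynomial (Fin n) ℚ} {D : Set (Fin n → ℚ)}
    (h : Dense (rl (D ∩ Cb f))) : closure (ratPts f D) = realPts f := by
  rw [closure_ratPts, h.closure_eq]
  ext x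
  simp

theorem closure_univ_of_dense {n : ℕ} {f : MvPolynomial (Fin n) ℚ} (h : Dense (rl (Cb f))) :
    closure (ratPts f Set.univ) = realPts f :=
  closure_of_dense (by rwa [Set.univ_inter])

theorem sa_real {n : ℕ} (f : MvPolynomial (Fin n) ℚ) : SAP fun x => x ∈ realPts f := by
  have h : SAP fun x : Fin (n + 1) → ℝ => (aeval x (X 0 ^ 3 - rename Fin.succ f) : ℝ) = 0 :=
    SAP.eq_zero (PF.aeval _)
  refine h.congr fun x => ?_
  simp only [map_sub, map_pow, aeval_X, aeval_rename, realPts, Set.mem_ofPred_eq, sub_eq_zero]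
  rfl

theorem sa_coord {n : ℕ} (k : Fin n) (β : ℚ) : SAP fun x : Fin n → ℝ => x k = β :=
  SAP.eq (PF.coord k) (PF.const β)

/-- **Mazur's conjecture for cyclic triple covers.** -/
theorem result :
    -- (1) Zariski density implies density in the real topology
    (∀ (n : ℕ) (f : MvPolynomial (Fin n) ℚ) (v : Fin n → Fin n → ℚ), f ≠ 0 →
      LinearIndependent ℚ v → (∀ k z, (lineP f z (v k)).natDegree ≤ 3) →
      ∃ P : MvPolynomial (Fin n) ℚ, P ≠ 0 ∧
        ((∃ z : Fin n → ℚ, (∃ w : ℚ, w ^ 3 = eval z f) ∧ eval z P ≠ 0) →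
          closure (ratPts f Set.univ) = realPts f)) ∧
    -- (2) one rational point
    (∀ (n : ℕ) (f : MvPolynomial (Fin n) ℚ) (v : Fin n → Fin n → ℚ) (z₀ : Fin n → ℚ),
      LinearIndependent ℚ v → (∀ k z, (lineP f z (v k)).natDegree ≤ 3) →
      eval z₀ f ≠ 0 → (∃ w : ℚ, w ^ 3 = eval z₀ f) →
      (∀ k : Fin n,
        (∀ s : Fin n → ℚ, (∀ j, k ≤ j → s j = 0) →
          Dz (lineP f (fun i => z₀ i + ∑ j, s j * v j i) (v k))) ∨
        ∃ s : Fin n → ℚ, (∀ j, k ≤ j → s j = 0) ∧
          Ndg (lineP f (fun i => z₀ i + ∑ j, s j * v j i) (v k))) →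
      closure (ratPts f Set.univ) = realPts f) ∧
    -- (3) sections at infinity
    (∀ (n : ℕ) (a b c g : MvPolynomial (Fin n) ℚ) (z₀ : Fin n → ℚ), eval z₀ g ≠ 0 →
      NdHG (eval z₀ (c ^ 2 - 3 * b * g ^ 3))
        (eval z₀ (2 * c ^ 3 - 9 * b * c * g ^ 3 + 27 * a * g ^ 6)) →
      closure (ratPts (secP a b c g) Set.univ) = realPts (secP a b c g)) ∧
    -- (4) products
    (∀ (n : ℕ) (c : ℚ) (f : Fin n → Polynomial ℚ) (e : Fin n → ℕ),
      (∀ i, (f i).natDegree ≤ 3) →
      (∃ S : Set (Fin n → Option ℚ), S.Finite ∧ (∀ q ∈ S, ∀ i β, q i = some β → Exc (f i) β) ∧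
        closure (ratPts (prodP c f e) Set.univ) =
          {x | x ∈ realPts (prodP c f e) ∧ ∃ q ∈ S, ∀ i β, q i = some β → x i.succ = β}) ∧
      Semialgebraic (closure (ratPts (prodP c f e) Set.univ)) ∧
      ((∃ z : Fin n → ℚ, eval z (prodP c f e) ≠ 0 ∧ (∃ w : ℚ, w ^ 3 = eval z (prodP c f e)) ∧
        ∀ i, OK (f i) (z i)) → closure (ratPts (prodP c f e) Set.univ) = realPts (prodP c f e))) ∧
    -- (5) surfaces
    (∀ f : MvPolynomial (Fin 2) ℚ, (∀ (k : Fin 2) (z : Fin 2 → ℚ),
      (lineP f z (Pi.single k 1)).natDegree ≤ 3) →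
      (closure (ratPts f {z | eval z f ≠ 0}) = realPts f ∨
        ∃ (B : Fin 2 → Set ℚ) (E : Set (Fin 2 → ℚ)), (∀ k, (B k).Finite) ∧ E.Finite ∧
          closure (ratPts f {z | eval z f ≠ 0}) =
            closure (ratPts f {z | ∀ k, ¬ Dz (lineP f z (Pi.single k 1)) ∧
              ¬ Ndg (lineP f z (Pi.single k 1))}) ∪
            {x | x ∈ realPts f ∧ ((∃ r ∈ E, ∀ k, x k.succ = (r k : ℝ)) ∨
              ∃ k, ∃ β ∈ B k, x k.succ = (β : ℝ))}) ∧
      (Semialgebraic (closure (ratPts f {z | ∀ k, ¬ Dz (lineP f z (Pi.single k 1)) ∧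
        ¬ Ndg (lineP f z (Pi.single k 1))})) →
        Semialgebraic (closure (ratPts f {z | eval z f ≠ 0})) ∧
        (Semialgebraic (closure (ratPts f {z | eval z f = 0})) →
          Semialgebraic (closure (ratPts f Set.univ))))) := by
  refine ⟨?_, ?_, ?_, ?_, ?_⟩
  · intro n f v hf hv hdeg
    obtain ⟨P, hP, h⟩ := zariski_dense f hf v hv hdeg
    exact ⟨P, hP, fun h1 => closure_univ_of_dense (h h1)⟩
  · intro n f v z₀ hv hdeg h0 hc chain
    exact closure_univ_of_dense (dense_Cb f z₀ v hv hdeg h0 hc chain)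
  · intro n a b c g z₀ hg h
    exact closure_univ_of_dense (sec_dense a b c g z₀ hg h)
  · intro n c f e hdeg
    have hCb : Cb (prodP c f e) = Ar c f e (fun _ => none) := by
      ext z
      simp [Cb, Ar, prodP_eval]
    obtain ⟨S, hS1, hS2, hS3⟩ := structure_Ar (c := c) (f := f) (e := e) hdeg _
      (fun _ => none) rfl
    have hcl : closure (ratPts (prodP c f e) Set.univ) =
        {x | x ∈ realPts (prodP c f e) ∧ ∃ q ∈ S, ∀ i β, q i = some β → x i.succ = β} := by
      rw [closure_ratPts, Set.univ_inter, hCb, hS2]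
      ext x
      simp only [Set.mem_iUnion, Vr, Set.mem_ofPred_eq, exists_prop]
      exact and_comm
    refine ⟨⟨S, hS1, fun q hq i β hi => (hS3 q hq i β hi).resolve_left (by simp), hcl⟩, ?_, ?_⟩
    · rw [hcl]
      refine SA.frozen ?_
      have : SAP fun x : Fin (n + 1) → ℝ => x ∈ realPts (prodP c f e) ∧
          ∃ q ∈ hS1.toFinset, ∀ i, (q i = none ∨ x i.succ = ((q i).getD 0 : ℚ)) := by
        refine SAP.and (sa_real _) (SAP.exists_mem _ fun q _ => SAP.forall_fin fun i => ?_)
        exact SAP.or (SAP.const _) (sa_coord i.succ _)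
      refine this.congr fun x => and_congr_right fun _ => ?_
      simp only [Set.Finite.mem_toFinset]
      refine exists_congr fun q => and_congr_right fun _ => forall_congr' fun i => ?_
      rcases q i with _ | β
      · simp
      · simp
    · rintro ⟨z, h0, hc, hok⟩
      rw [prodP_eval] at h0 hc
      have h := prod_dense hdeg h0 hc Finset.univ (fun k _ => hok k)
      refine closure_univ_of_dense fun y => ?_
      refine closure_mono ?_ (h (fun i hi => absurd (Finset.mem_univ i) hi : y ∈ _))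
      rintro _ ⟨z, ⟨_, _, hz⟩, rfl⟩
      exact ⟨z, by rw [hCb]; exact ⟨by simp, hz⟩, rfl⟩
  · intro f hdeg
    have e1 : {z | eval z f ≠ 0} ∩ Cb f = Sf f := rfl
    have hbad : ∀ z, (∀ k, ¬ Dz (lineP f z (Pi.single k 1)) ∧ ¬ Ndg (lineP f z (Pi.single k 1))) →
        eval z f ≠ 0 := by
      intro z hz h0
      apply (hz 0).1
      have hc := Lk_coeff_zero f 0 z
      unfold Lk at hc
      rw [h0] at hc
      unfold Dz Qg Qh
      rw [hc]
      ring
    have e2 : {z | ∀ k, ¬ Dz (lineP f z (Pi.single k 1)) ∧ ¬ Ndg (lineP f z (Pi.single k 1))} ∩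
        Cb f = Sf f ∩ Tf f := by
      ext z
      constructor
      · rintro ⟨h1, h2⟩
        have h0 := hbad z h1
        refine ⟨⟨h0, h2⟩, fun k hk => ?_⟩
        rcases hk with hk | hk
        · exact (h1 k).1 hk
        · refine (h1 k).2 ⟨?_, hk⟩
          have hc := Lk_coeff_zero f k z
          unfold Lk at hc
          rw [hc]
          exact h0
      · rintro ⟨⟨h0, h2⟩, h1⟩
        exact ⟨fun k => ⟨fun hk => h1 k (Or.inl hk), fun hk => h1 k (Or.inr hk.2)⟩, h2⟩
    have alt : closure (ratPts f {z | eval z f ≠ 0}) = realPts f ∨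
        ∃ (B : Fin 2 → Set ℚ) (E : Set (Fin 2 → ℚ)), (∀ k, (B k).Finite) ∧ E.Finite ∧
          closure (ratPts f {z | eval z f ≠ 0}) =
            closure (ratPts f {z | ∀ k, ¬ Dz (lineP f z (Pi.single k 1)) ∧
              ¬ Ndg (lineP f z (Pi.single k 1))}) ∪
            {x | x ∈ realPts f ∧ ((∃ r ∈ E, ∀ k, x k.succ = (r k : ℝ)) ∨
              ∃ k, ∃ β ∈ B k, x k.succ = (β : ℝ))} := by
      by_cases hd : Dense (rl (Sf f))
      · left
        exact closure_of_dense (by rw [e1]; exact hd)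
      · right
        obtain ⟨B, E, hB, hE, h⟩ := surf_structure hdeg hd
        refine ⟨B, E, hB, hE, ?_⟩
        rw [closure_ratPts, closure_ratPts, e1, e2, h]
        ext x
        simp only [Set.mem_union, Set.mem_ofPred_eq]
        constructor
        · rintro ⟨(h1 | ⟨r, hr, h1⟩) | ⟨k, β, hβ, h1⟩, hx⟩
          · exact Or.inl ⟨h1, hx⟩
          · exact Or.inr ⟨hx, Or.inl ⟨r, hr, fun k => congrFun h1 k⟩⟩
          · exact Or.inr ⟨hx, Or.inr ⟨k, β, hβ, h1⟩⟩
        · rintro (⟨h1, hx⟩ | ⟨hx, ⟨r, hr, h1⟩ | ⟨k, β, hβ, h1⟩⟩)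
          · exact ⟨Or.inl (Or.inl h1), hx⟩
          · exact ⟨Or.inl (Or.inr ⟨r, hr, funext h1⟩), hx⟩
          · exact ⟨Or.inr ⟨k, β, hβ, h1⟩, hx⟩
    refine ⟨alt, fun hT => ?_⟩
    have hU : SA (closure (ratPts f {z | eval z f ≠ 0})) := by
      rcases alt with h | ⟨B, E, hB, hE, h⟩
      · rw [h]
        exact sa_real f
      · rw [h]
        refine SA.union hT.sa ?_
        have : SAP fun x : Fin 3 → ℝ => x ∈ realPts f ∧
            ((∃ r ∈ hE.toFinset, ∀ k, x k.succ = (r k : ℚ)) ∨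
              ∃ k, ∃ β ∈ (hB k).toFinset, x (Fin.succ k) = (β : ℚ)) := by
          refine SAP.and (sa_real f) (SAP.or ?_ ?_)
          · exact SAP.exists_mem _ fun r _ => SAP.forall_fin fun k => sa_coord k.succ _
          · exact SAP.exists_fin fun k => SAP.exists_mem _ fun β _ => sa_coord k.succ _
        refine this.congr fun x => ?_
        simp only [Set.Finite.mem_toFinset]
    refine ⟨SA.frozen hU, fun hZ => SA.frozen ?_⟩
    have hun : ratPts f Set.univ = ratPts f {z | eval z f ≠ 0} ∪ ratPts f {z | eval z f = 0} := by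
      ext x
      constructor
      · rintro ⟨u, _, h⟩
        by_cases h0 : eval (fun k => u k.succ) f = 0
        · exact Or.inr ⟨u, h0, h⟩
        · exact Or.inl ⟨u, h0, h⟩
      · rintro (⟨u, _, h⟩ | ⟨u, _, h⟩) <;> exact ⟨u, trivial, h⟩
    rw [hun, closure_union]
    exact SA.union hU hZ.sa

end Pool.Agent.Results.MP_42de19_nt.CyclicTripleCovers
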