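import Pool.Agent.D0H62.EF.Pad

/-!
# The semialgebraic form of Mazur's conjecture and families of curves of genus at most one

Let `X` be an affine variety over `ℚ`, given by `p = 0`, `g ≠ 0`. A family of curves of genus at
most one through the points of `X` (`Curves p g`) consists of polynomials `q₀, …, q₄`, `w`, `P`, `D`
over `ℚ` such that for all real points `x` of `X`

* `q₀(x) = w(x)²`,
* the points `P(t, s, x) / D(t, s, x)` with `s² = q₀(x) + q₁(x) t + … + q₄(x) t⁴` are zeros of `p`,
* the image of the point `(0, w(x))` is `x`.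

The family starts at `x` (`Ok0`) if `w(x) ≠ 0` and `D(0, w(x), x) ≠ 0`; then `tangent x` is `2 w D`
times the derivative at `t = 0` of the branch of the curve with `s = w(x)` at `t = 0`. The family is
nondegenerate at a rational point `x` of `X`, if it starts there, and the difference of the points
`(0, w(x))` and `(0, -w(x))` of the curve `s² = q(t)` has infinite order, or if `q₁, …, q₄` are the
polynomials zero (this is the case of rational curves). The point `x` is nondegenerate with respect
to finitely many families, if it is a smooth point at which the equations have maximal rank, and the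
tangent vectors of the families which are nondegenerate at `x` span the tangent space of `X`.

(1) The closure in `ℝᴺ` of the set of the nondegenerate rational points is semialgebraic over `ℚ`.

(2) Let `V` be the set of the real points of `X` at which the equations have maximal rank, all the
families start, and the tangent vectors span the tangent space. Each connected subset of `V` is
contained in the closure of the set of the rational points of `V` at which all families are
nondegenerate, or it is disjoint from this closure.

(3) The same as (1) for the closure of the set of the values of rational functions at the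
nondegenerate rational points of products of such varieties and affine spaces.

(4) Hypersurfaces `F = 0` in the affine space of dimension `n`, and finitely many pairs `(a, b)` of
rational vectors. The section of the hypersurface by the plane `x + ⟨a, b⟩` is nondegenerate at the
rational point `x` of the hypersurface in the following two cases, in both of which the derivative
`∂_b F(x)` in the direction `b` is different from zero:

* `F(y + t a + s b) = A s² + B s + C` for all `y`, where the degree in `t` of the discriminant
  `B² - 4 A C` is at most four, and for `y = x` the difference of the two points over `t = 0` of the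
  curve `s² = B² - 4 A C` (that is the difference of `x` and the second point of the section on the
  line `x + ⟨b⟩`) has infinite order;
* `F` has degree at most three on all lines whose direction is in `⟨a, b⟩`; so the sections are
  plane cubic curves; for the tangent vector `u = ∂_b F(x) a - ∂_a F(x) b` of the section at `x` and
  `F(x + s (u + t b)) = A₁ s + A₂ s² + A₃ s³` the difference of the two points over `t = 0` of the
  curve `s² = A₂² - 4 A₁ A₃` (that is the difference of `x` and the third point of the section on
  its tangent line at `x`) has infinite order.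

The closure of the set of the smooth rational points `x` of the hypersurface for which the tangent
vectors `∂_b F(x) a - ∂_a F(x) b` of the nondegenerate sections span the tangent space is
semialgebraic over `ℚ`.

(5) Let `r ≥ 3` be a prime number, such that the polynomials `g`, `q₀, …, q₄`, `w`, `P`, `D` of all
the families have `r`-integral coefficients. A rational point `x` of `X` has good reduction at `r`,
if its coordinates are `r`-integral, and `g(x)`, and for all families `w(x)`, `D(0, w(x), x)`, and
the discriminant of the Jacobian of the curve `s² = q(t)` (unless `q₁, …, q₄` are zero) are `r`-adic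
units. There are polynomials `G`, one for each family, such that the family is nondegenerate at a
point `x` with good reduction at `r` if and only if `G(x) ≠ 0`. So all the points with good
reduction at `r` outside of a Zariski closed subset are nondegenerate, without a condition on the
order of a point; the assertions (1) and (2) hold for the set of the points of `V` with good
reduction at `r` and `G(x) ≠ 0` for all families, too.

Examples for (4) are the hypersurfaces of multidegree `(2, …, 2)` in `(ℙ¹)ⁿ` (with pairs of vectors
of the standard basis), which are Calabi-Yau varieties of dimension `n - 1` and K3 surfaces for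
`n = 3`, and the quartic surfaces which contain two rational lines which meet (for the affine
coordinates for which the two lines are at infinity; the planes are those which contain one of the
two lines).

The proof shows that the closure of the set of the nondegenerate points is open in the set of the
real points, at the points where the tangent vectors span: the real points near a given point `T`
are obtained by small moves along the curves of the families, uniformly in the starting point near
`T`; if the starting point is rational and nondegenerate, then the moves can be approximated by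
moves to rational points which are also close to the starting point `p`-adically, for a large prime
number `p`, and such moves preserve nondegeneracy, outside of the zeros of a function which does
not vanish identically (here the order of a rational torsion point is bounded in terms of `p`).
-/

set_option autoImplicit false

namespace Pool.Agent.Results.MP_42de19_nt.GenusOneFamilies

open MvPolynomial Pool.Agent.D0H62.EF Pool.Agent.TH729.SQ Pool.Agent.H581R2

/-- Semialgebraic sets defined over `ℚ`: the finite unions of sets
`{p = 0, q₁ > 0, …, q_k > 0}`, where `p` and the `qᵢ` are polynomials with rational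
coefficients. -/
def Semialgebraic {n : ℕ} (S : Set (Fin n → ℝ)) : Prop :=
  ∃ (m : ℕ) (P : Fin m → MvPolynomial (Fin n) ℚ) (G : Fin m → Finset (MvPolynomial (Fin n) ℚ)),
    S = {x : Fin n → ℝ | ∃ j : Fin m, (aeval x (P j) : ℝ) = 0 ∧
      ∀ g ∈ G j, (0 : ℝ) < aeval x g}

/-- The Jacobian of the curve `s² = q(t)`, where `q` is a polynomial of degree at most `4`. -/
def jacobian (q : Polynomial ℚ) : WeierstrassCurve ℚ where
  a₁ := 0
  a₂ := q.coeff 2
  a₃ := 0
  a₄ := q.coeff 1 * q.coeff 3 - 4 * q.coeff 0 * q.coeff 4
  a₆ := q.coeff 1 ^ 2 * q.coeff 4 + q.coeff 0 * q.coeff 3 ^ 2 -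
    4 * q.coeff 0 * q.coeff 2 * q.coeff 4

/-- The Jacobian is nonsingular, `q(0) = w²` for a rational number `w ≠ 0`, and the difference of
the two points `(0, w)` and `(0, -w)` of the curve `s² = q(t)` has infinite order. -/
def InfiniteOrder (q : Polynomial ℚ) : Prop :=
  (jacobian q).Δ ≠ 0 ∧ ∃ (w x y : ℚ) (h : (jacobian q).toAffine.Nonsingular x y),
    w ≠ 0 ∧ w ^ 2 = q.coeff 0 ∧ x = q.coeff 1 ^ 2 / (4 * w ^ 2) - q.coeff 2 ∧
    y = (q.coeff 1 * x + 2 * w ^ 2 * q.coeff 3) / (2 * w) ∧
    ∀ m : ℕ, m ≠ 0 → m • WeierstrassCurve.Affine.Point.some x y h ≠ 0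

section general

variable {N c : ℕ} {p : Fin c → MvPolynomial (Fin N) ℚ} {g : MvPolynomial (Fin N) ℚ} {κ : Type}

/-- The family is nondegenerate at the rational point `x`. -/
def NondegAt (C : Curves p g) (x : Fin N → ℚ) : Prop :=
  C.Ok0 (toR x) ∧ ((∀ k : Fin 5, k ≠ 0 → C.q k = 0) ∨ InfiniteOrder (C.quartic x))

/-- The nondegenerate rational points of `X = {p = 0, g ≠ 0}`: the tangent vectors of the families
which are nondegenerate at `x` span the tangent space. -/
def points (C : κ → Curves p g) : Set (Fin N → ℚ) :=
  {x | RealPt p g (toR x) ∧ Smooth p (toR x) ∧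
    ∀ w : Fin N → ℝ, (∀ i, ∑ j, (aeval (toR x) (pderiv j (p i)) : ℝ) * w j = 0) →
      w ∈ Submodule.span ℝ {u | ∃ k, NondegAt (C k) x ∧ u = (C k).tangent (toR x)}}

/-- The real points at which all families start, with tangent vectors which span the tangent
space. -/
def region (C : κ → Curves p g) : Set (Fin N → ℝ) :=
  {x | RealPt p g x ∧ Smooth p x ∧ (∀ k, (C k).Ok0 x) ∧
    ∀ w : Fin N → ℝ, (∀ i, ∑ j, (aeval x (pderiv j (p i)) : ℝ) * w j = 0) →
      w ∈ Submodule.span ℝ {u | ∃ k, u = (C k).tangent x}}

end general

section hypersurfaces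

variable {n : ℕ}

/-- The derivative of `F` at `x` in the direction `v`. -/
noncomputable def derivative (F : MvPolynomial (Fin n) ℚ) (x v : Fin n → ℚ) : ℚ :=
  ∑ j, eval x (pderiv j F) * v j

/-- The polynomial `F(x + s v)` in `s`. -/
noncomputable def line (F : MvPolynomial (Fin n) ℚ) (x v : Fin n → ℚ) : Polynomial ℚ :=
  aeval (fun j => Polynomial.C (x j) + Polynomial.C (v j) * Polynomial.X) F

/-- The polynomial `F(x + t a + s b)` in `s`, with coefficients in `ℚ[t]`. -/
noncomputable def plane (F : MvPolynomial (Fin n) ℚ) (x a b : Fin n → ℚ) :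
    Polynomial (Polynomial ℚ) :=
  aeval (fun j => Polynomial.C (Polynomial.C (x j) + Polynomial.C (a j) * Polynomial.X) +
    Polynomial.C (Polynomial.C (b j)) * Polynomial.X) F

/-- The polynomial `F(x + s (u + t b))` in `s`, with coefficients in `ℚ[t]`, for the vector
`u = ∂_b F(x) a - ∂_a F(x) b`. -/
noncomputable def pencil (F : MvPolynomial (Fin n) ℚ) (x a b : Fin n → ℚ) :
    Polynomial (Polynomial ℚ) :=
  aeval (fun j => Polynomial.C (Polynomial.C (x j)) +
    Polynomial.C (Polynomial.C (derivative F x b * a j - derivative F x a * b j) +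
      Polynomial.C (b j) * Polynomial.X) * Polynomial.X) F

/-- The discriminant `c₁² - 4 c₂ c₀`. -/
noncomputable def disc (c₀ c₁ c₂ : Polynomial ℚ) : Polynomial ℚ := c₁ ^ 2 - 4 * c₂ * c₀

/-- The section of the hypersurface `F = 0` by the plane `x + ⟨a, b⟩` is nondegenerate at `x`. -/
def NondegSection (F : MvPolynomial (Fin n) ℚ) (a b x : Fin n → ℚ) : Prop :=
  derivative F x b ≠ 0 ∧
  (((∀ y, (plane F y a b).natDegree ≤ 2 ∧ (disc ((plane F y a b).coeff 0)
      ((plane F y a b).coeff 1) ((plane F y a b).coeff 2)).natDegree ≤ 4) ∧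
    InfiniteOrder (disc ((plane F x a b).coeff 0) ((plane F x a b).coeff 1)
      ((plane F x a b).coeff 2))) ∨
  ((∀ (y : Fin n → ℚ) (r s : ℚ), (line F y fun j => r * a j + s * b j).natDegree ≤ 3) ∧
    InfiniteOrder (disc ((pencil F x a b).coeff 1) ((pencil F x a b).coeff 2)
      ((pencil F x a b).coeff 3))))

/-- The smooth rational points `x` of the hypersurface `F = 0`, for which the tangent vectors of the
nondegenerate sections, for the pairs `(a, b)` in `S`, span the tangent space. -/
def hyperPoints (F : MvPolynomial (Fin n) ℚ) (S : Finset ((Fin n → ℚ) × (Fin n → ℚ))) :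
    Set (Fin n → ℚ) :=
  {x | eval x F = 0 ∧ (∃ j, eval x (pderiv j F) ≠ 0) ∧
    ∀ w : Fin n → ℝ, ∑ j, ((eval x (pderiv j F) : ℚ) : ℝ) * w j = 0 →
      w ∈ Submodule.span ℝ {u | ∃ s ∈ S, NondegSection F s.1 s.2 x ∧
        u = fun j => ((derivative F x s.2 * s.1 j - derivative F x s.1 * s.2 j : ℚ) : ℝ)}}

end hypersurfaces

section reduction

variable {N c : ℕ} {p : Fin c → MvPolynomial (Fin N) ℚ} {g : MvPolynomial (Fin N) ℚ} {κ : Type}

/-- The polynomials which define the families have `r`-integral coefficients. -/
def IntegralAt (r : ℕ) (C : κ → Curves p g) : Prop :=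
  (∀ d, padicNorm r (g.coeff d) ≤ 1) ∧ ∀ k, (∀ d, padicNorm r ((C k).w.coeff d) ≤ 1) ∧
    (∀ i d, padicNorm r (((C k).q i).coeff d) ≤ 1) ∧
    (∀ j d, padicNorm r (((C k).P j).coeff d) ≤ 1) ∧ ∀ d, padicNorm r ((C k).D.coeff d) ≤ 1

/-- The rational point `x` has good reduction at `r`. -/
def GoodRed (r : ℕ) (C : κ → Curves p g) (x : Fin N → ℚ) : Prop :=
  (∀ j, padicNorm r (x j) ≤ 1) ∧ padicNorm r (eval x g) = 1 ∧ ∀ k,
    padicNorm r (eval x (C k).w) = 1 ∧
    padicNorm r (eval (Sum.elim ![0, eval x (C k).w] x) (C k).D) = 1 ∧
    ((∀ i : Fin 5, i ≠ 0 → (C k).q i = 0) ∨ padicNorm r (jacobian ((C k).quartic x)).Δ = 1)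

end reduction

lemma inf_iff (q : Polynomial ℚ) : InfiniteOrder q ↔ Pool.Agent.Y718.X.Inf q :=
  Pool.Agent.Y718.X.infO_iff q

lemma points_eq {N c : ℕ} {p : Fin c → MvPolynomial (Fin N) ℚ} {g : MvPolynomial (Fin N) ℚ}
    {κ : Type} [Fintype κ] (C : κ → Curves p g) : points C = ND C := by
  rw [nd_span]
  unfold points NondegAt Good Curves.Nd
  simp only [inf_iff]
  rfl

lemma region_eq {N c : ℕ} {p : Fin c → MvPolynomial (Fin N) ℚ} {g : MvPolynomial (Fin N) ℚ}
    {κ : Type} [Fintype κ] (C : κ → Curves p g) : region C = VV C := by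
  rw [vv_span]
  rfl

lemma derivative_eq {n : ℕ} (F : MvPolynomial (Fin n) ℚ) (x v : Fin n → ℚ) :
    derivative F x v = dr F x v := by
  unfold derivative dr
  simp only [MvPolynomial.aeval_eq_eval]

lemma hypersurface_eq {n : ℕ} (F : MvPolynomial (Fin n) ℚ)
    (S : Finset ((Fin n → ℚ) × (Fin n → ℚ))) : hyperPoints F S = HP F S := by
  have hpl : ∀ x a b, plane F x a b = pI F x a b := fun _ _ _ => rfl
  have hpe : ∀ x a b, pencil F x a b = pII F x a b := by
    intro x a b
    unfold pencil pII rs
    simp only [add_zero, derivative_eq]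
    rfl
  have h1 : ∀ (s : (Fin n → ℚ) × (Fin n → ℚ)) (x : Fin n → ℚ),
      NondegSection F s.1 s.2 x ↔ (S1 F s x ∨ S2 F s x) := by
    intro s x
    unfold NondegSection S1 S2
    rw [← and_or_left]
    simp only [inf_iff, hpl, hpe, derivative_eq]
    rfl
  unfold hyperPoints HP
  simp only [h1, derivative_eq]
  rfl

/-- **The closure of the set of the nondegenerate rational points.** -/
theorem result :
    -- (1) the closure of the set of the nondegenerate rational points
    (∀ (N c : ℕ) (p : Fin c → MvPolynomial (Fin N) ℚ) (g : MvPolynomial (Fin N) ℚ) (κ : Type)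
      [Finite κ] (C : κ → Curves p g),
      Semialgebraic (closure {x : Fin N → ℝ | ∃ u ∈ points C, x = toR u})) ∧
    -- (2) connected sets of real points
    (∀ (N c : ℕ) (p : Fin c → MvPolynomial (Fin N) ℚ) (g : MvPolynomial (Fin N) ℚ) (κ : Type)
      [Finite κ] (C : κ → Curves p g) (U : Set (Fin N → ℝ)), U ⊆ region C → IsPreconnected U →
      U ⊆ closure {x : Fin N → ℝ | ∃ u : Fin N → ℚ, toR u ∈ region C ∧
        (∀ k, NondegAt (C k) u) ∧ x = toR u} ∨
      Disjoint U (closure {x : Fin N → ℝ | ∃ u : Fin N → ℚ, toR u ∈ region C ∧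
        (∀ k, NondegAt (C k) u) ∧ x = toR u})) ∧
    -- (3) the closure of the set of the values of rational functions on products
    (∀ (J κ : Type) [Finite J] [Finite κ] (N c : ℕ) (p : J → Fin c → MvPolynomial (Fin N) ℚ)
      (g : J → MvPolynomial (Fin N) ℚ) (I : J → Type) [∀ j, Finite (I j)]
      (C : ∀ j, I j → Curves (p j) (g j)) (n : ℕ)
      (a : Fin n → MvPolynomial ((J × Fin N) ⊕ κ) ℚ) (b : MvPolynomial ((J × Fin N) ⊕ κ) ℚ),
      Semialgebraic (closure {y : Fin n → ℝ | ∃ (x : J → Fin N → ℚ) (u : κ → ℚ),
        (∀ j, x j ∈ points (C j)) ∧ eval (Sum.elim (fun s => x s.1 s.2) u) b ≠ 0 ∧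
        ∀ k, y k = ((eval (Sum.elim (fun s => x s.1 s.2) u) (a k) /
          eval (Sum.elim (fun s => x s.1 s.2) u) b : ℚ) : ℝ)})) ∧
    -- (4) hypersurfaces with plane sections of genus at most one
    (∀ (n : ℕ) (F : MvPolynomial (Fin n) ℚ) (S : Finset ((Fin n → ℚ) × (Fin n → ℚ))),
      Semialgebraic (closure {x : Fin n → ℝ | ∃ u ∈ hyperPoints F S, x = toR u})) ∧
    -- (5) the points with good reduction at a prime number
    (∀ (N c : ℕ) (p : Fin c → MvPolynomial (Fin N) ℚ) (g : MvPolynomial (Fin N) ℚ) (κ : Type)
      [Finite κ] (C : κ → Curves p g) (r : ℕ), r.Prime → 3 ≤ r → IntegralAt r C →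
      ∃ G : κ → MvPolynomial (Fin N) ℚ,
        (∀ (k : κ) (u : Fin N → ℚ), RealPt p g (toR u) → GoodRed r C u →
          (NondegAt (C k) u ↔ eval u (G k) ≠ 0)) ∧
        Semialgebraic (closure {x : Fin N → ℝ | ∃ u : Fin N → ℚ, toR u ∈ region C ∧
          GoodRed r C u ∧ (∀ k, eval u (G k) ≠ 0) ∧ x = toR u}) ∧
        ∀ U : Set (Fin N → ℝ), U ⊆ region C → IsPreconnected U →
          U ⊆ closure {x : Fin N → ℝ | ∃ u : Fin N → ℚ, toR u ∈ region C ∧
            GoodRed r C u ∧ (∀ k, eval u (G k) ≠ 0) ∧ x = toR u} ∨
          Disjoint U (closure {x : Fin N → ℝ | ∃ u : Fin N → ℚ, toR u ∈ region C ∧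
            GoodRed r C u ∧ (∀ k, eval u (G k) ≠ 0) ∧ x = toR u})) := by
  refine ⟨?_, ?_, ?_, ?_, ?_⟩
  · intro N c p g κ _ C
    have : Fintype κ := Fintype.ofFinite κ
    rw [points_eq]
    exact SA.frozen (sa_nd C)
  · intro N c p g κ _ C U hU hUc
    have : Fintype κ := Fintype.ofFinite κ
    rw [region_eq] at hU ⊢
    have h1 : {x : Fin N → ℝ | ∃ u : Fin N → ℚ, toR u ∈ VV C ∧
        (∀ k, NondegAt (C k) u) ∧ x = toR u} = rl (NN C) := by
      ext x
      constructor
      · rintro ⟨u, hu, hk, rfl⟩
        exact ⟨u, ⟨hu, fun k => (hk k).2.imp_right fun h => (inf_iff _).1 h⟩, rfl⟩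
      · rintro ⟨u, ⟨hu, hk⟩, rfl⟩
        exact ⟨u, hu, fun k => ⟨hu.2.2.1 k, (hk k).imp_right fun h => (inf_iff _).2 h⟩, rfl⟩
    rw [h1]
    exact conn C (stable_all C) hU hUc
  · intro J κ _ _ N c p g I _ C n a b
    have : ∀ j, Fintype (I j) := fun j => Fintype.ofFinite (I j)
    refine SA.frozen (values_main (fun j => points (C j)) (fun j => ?_) a b)
    rw [points_eq]
    exact sa_nd (C j)
  · intro n F S
    rw [hypersurface_eq]
    exact SA.frozen (sa_hp F S)
  · intro N c p g κ _ C r hr h3 hC
    have : Fintype κ := Fintype.ofFinite κ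
    have : Fact r.Prime := ⟨hr⟩
    rw [region_eq]
    obtain ⟨G, hG⟩ := padic_G r h3 C hC
    have hst := stable_np r h3 C hC
    have h1 : {x : Fin N → ℝ | ∃ u : Fin N → ℚ, toR u ∈ VV C ∧
        GoodRed r C u ∧ (∀ k, eval u (G k) ≠ 0) ∧ x = toR u} = rl (NP r C) := by
      ext x
      constructor
      · rintro ⟨u, hu, hg, hk, rfl⟩
        exact ⟨u, ⟨⟨hu, fun k => (hG k u hu.1 hg).2 (hk k)⟩, hg⟩, rfl⟩
      · rintro ⟨u, ⟨⟨hu, hk⟩, hg⟩, rfl⟩
        exact ⟨u, hu, hg, fun k => (hG k u hu.1 hg).1 (hk k), rfl⟩
    refine ⟨G, fun k u hu hg => ?_, ?_, fun U hU hUc => ?_⟩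
    · rw [← hG k u hu hg]
      unfold NondegAt Curves.Nd
      rw [inf_iff]
      exact ⟨fun h => h.2, fun h => ⟨good_ok0 r h3 C hg k, h⟩⟩
    · rw [h1]
      exact SA.frozen (sa_cl C hst)
    · rw [h1]
      exact conn C hst hU hUc

end Pool.Agent.Results.MP_42de19_nt.GenusOneFamilies
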