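import Pool.Agent.D0H62.IT.Iso
import Pool.Agent.D0H62.IT.Exq

/-!
# The semialgebraic form of Mazur's conjecture and families of curves of genus one with integral
invariants

In the known results on the rational points of a variety `X` with several families of curves of
genus one, the rational points have to be nondegenerate: on the curves of the families through the
point, a certain rational point of the Jacobian has to be of infinite order. This is not a condition
which can be read off from the equations. We show that this is a Zariski open condition for families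
of curves whose invariants are integral at a prime number `r ≥ 5`. For such families we obtain
Mazur's conjecture, in the semialgebraic form, for all the rational points outside of a Zariski
closed subset, without a condition on the order of a point.

Let `X` be an affine variety over `ℚ`, given by `p = 0`, `g ≠ 0`. A family of curves of genus at
most one through the points of `X` (`Curves p g`) consists of polynomials `q₀, …, q₄`, `w`, `P`, `D`
over `ℚ` such that for all real points `x` of `X`

* `q₀(x) = w(x)²`,
* the points `P(t, s, x) / D(t, s, x)` with `s² = q₀(x) + q₁(x) t + … + q₄(x) t⁴` are zeros of `p`,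
* the image of the point `(0, w(x))` is `x`.

The family starts at `x` (`Ok0`) if `w(x) ≠ 0` and `D(0, w(x), x) ≠ 0`; then `tangent x` is `2 w D`
times the derivative at `t = 0` of the branch of the curve with `s = w(x)` at `t = 0`. It is
nondegenerate at a rational point `x` of `X`, if it starts there, and the difference of the points
`(0, w(x))` and `(0, -w(x))` of the curve `s² = q(t)` has infinite order, or if it is a family of
rational curves (`q₁, …, q₄` are the polynomials zero). The family is integral at `x` for the prime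
number `r`, if it is a family of rational curves, or the invariant `j = c₄³ / Δ` of the curve
`s² = q(t)` at `x` is `r`-integral, or this curve is singular. (So the curve has potentially good
reduction at `r`.)

(1) Let `r ≥ 5` be a prime number. For finitely many families there are polynomials `G_k`, such
that the family number `k` is nondegenerate at a rational point `x`, at which it starts and is
integral for `r`, if and only if `G_k(x) ≠ 0`. Let `V` be the set of the real points at which the
equations of `X` have maximal rank, all the families start, and the tangent vectors span the tangent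
space. If all the families are integral for `r` at all the rational points of `V`, then the closure
in `ℝᴺ` of the set of all the rational points of `V` with `G_k(x) ≠ 0` for all `k` is semialgebraic
over `ℚ`, and each connected subset of `V` is contained in this closure, or disjoint from it.

Examples are all the families with constant invariants `j` (which are integral for almost all `r`),
but also families with nonconstant invariants, for example `j = a(x₁) / (x₁² - d)^k` for a
polynomial `a` of degree at most `2k` with integral coefficients and an integer `d` which is not a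
square modulo `r`.

(2) Double covers `w² = f(z₁, …, z_n)`, where `f` has degree at most four in each variable. The
double covers of the lines through `z` in the directions of the axes are curves `s² = q(t)` of genus
at most one, with `q(t) = f(z + t e_i)`. We assume that at each rational point `z` at which `f(z)`
is a nonzero square, for each `i` the degree of `f` in `z_i` is at most two, or one of the
invariants

`I = 12 q₀ q₄ - 3 q₁ q₃ + q₂²`,
`J = 72 q₀ q₂ q₄ + 9 q₁ q₂ q₃ - 27 q₀ q₃² - 27 q₁² q₄ - 2 q₂³`

of `q(t) = f(z + t e_i)` is zero (`j = 0` or `j = 1728`). Here the nondegeneracy can be made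
explicit: `f(z)` is a nonzero square, and for each `i` the degree of `f` in `z_i` is at most two, or
`q` is good (`Good`), that is with `g = 3 q₁² - 8 q₀ q₂`

* `I = 0` and `J ≠ 0`, `g ≠ 0`, `g³ ∉ {64 q₀³ J, -512 q₀³ J, 256 q₀³ J}`, or
* `J = 0` and `I ≠ 0`, `g ≠ 0`, `g² ∉ {48 q₀² I, -48 q₀² I}`.

The closure of the set of these points (all the rational points outside of an explicit Zariski
closed subset) is semialgebraic over `ℚ`, and each connected set of real points with `w ≠ 0` is
contained in it, or disjoint from it.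

(3) Examples for (2): the polynomials `f` such that for each variable `z_i` the degree of `f` in
`z_i` is at most two, or `z_i` occurs in the monomials of `f` only with the exponents `a_i ∈ {0, 1}`
and `b_i ∈ {3, 4}`, for example `w² = a x⁴ + b y⁴ + c x⁴ y⁴ + d` and `w² = a x³ + b y³ + c x³ y³ + d`
(K3 surfaces), `w² = x (a y³ + b y) + x⁴ (c y³ + d y)`, or `w² = ∑ a_S ∏_{i ∈ S} z_i⁴`, the sum over
all the subsets `S` of `{1, …, n}` (Calabi-Yau varieties of dimension `n`).

For the proof of (1), the order of the torsion points of an elliptic curve over `ℚ` with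
`r`-integral invariant is bounded in terms of `r`: over the extension of `ℚ_r` with a sixth and a
fourth root of `r` the curve has good reduction, and the reduction is injective on the torsion
points of order prime to `r`; the orders which are powers of `r` are bounded, too. For the proof of
(2), we use the doubling of a point on `y² = x³ + k` and on `y² = x³ + k x` and the `2`-adic
absolute value of the coordinates of the multiples of the point.
-/

set_option autoImplicit false

namespace Pool.Agent.Results.MP_42de19_nt.IntegralInvariants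

open MvPolynomial Pool.Agent.D0H62.EF Pool.Agent.D0H62.IT Pool.Agent.TH729.SQ Pool.Agent.H581R2

/-- Semialgebraic sets defined over `ℚ`: the finite unions of sets
`{p = 0, q₁ > 0, …, q_k > 0}`, where `p` and the `qᵢ` are polynomials with rational
coefficients. -/
def Semialgebraic {n : ℕ} (S : Set (Fin n → ℝ)) : Prop :=
  ∃ (m : ℕ) (P : Fin m → MvPolynomial (Fin n) ℚ) (G : Fin m → Finset (MvPolynomial (Fin n) ℚ)),
    S = {x : Fin n → ℝ | ∃ j : Fin m, (aeval x (P j) : ℝ) = 0 ∧
      ∀ g ∈ G j, (0 : ℝ) < aeval x g}

/-- The Jacobian of the curve `s² = q(t)`, where `q` is a polynomial of degree at most `4`. -/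
def jacobian (q : Polynomial ℚ) : WeierstrassCurve ℚ where
  a₁ := 0
  a₂ := q.coeff 2
  a₃ := 0
  a₄ := q.coeff 1 * q.coeff 3 - 4 * q.coeff 0 * q.coeff 4
  a₆ := q.coeff 1 ^ 2 * q.coeff 4 + q.coeff 0 * q.coeff 3 ^ 2 -
    4 * q.coeff 0 * q.coeff 2 * q.coeff 4

/-- The Jacobian is nonsingular, `q(0) = w²` for a rational number `w ≠ 0`, and the difference of
the two points `(0, w)` and `(0, -w)` of the curve `s² = q(t)` has infinite order. -/
def InfiniteOrder (q : Polynomial ℚ) : Prop :=
  (jacobian q).Δ ≠ 0 ∧ ∃ (w x y : ℚ) (h : (jacobian q).toAffine.Nonsingular x y),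
    w ≠ 0 ∧ w ^ 2 = q.coeff 0 ∧ x = q.coeff 1 ^ 2 / (4 * w ^ 2) - q.coeff 2 ∧
    y = (q.coeff 1 * x + 2 * w ^ 2 * q.coeff 3) / (2 * w) ∧
    ∀ m : ℕ, m ≠ 0 → m • WeierstrassCurve.Affine.Point.some x y h ≠ 0

section families

variable {N c : ℕ} {p : Fin c → MvPolynomial (Fin N) ℚ} {g : MvPolynomial (Fin N) ℚ} {κ : Type}

/-- The family consists of rational curves. -/
def RationalFamily (C : Curves p g) : Prop := ∀ k : Fin 5, k ≠ 0 → C.q k = 0

/-- The family is nondegenerate at the rational point `x`. -/
def NondegAt (C : Curves p g) (x : Fin N → ℚ) : Prop :=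
  C.Ok0 (toR x) ∧ (RationalFamily C ∨ InfiniteOrder (C.quartic x))

/-- The real points at which all families start, with tangent vectors which span the tangent
space. -/
def region (C : κ → Curves p g) : Set (Fin N → ℝ) :=
  {x | RealPt p g x ∧ Smooth p x ∧ (∀ k, (C k).Ok0 x) ∧
    ∀ w : Fin N → ℝ, (∀ i, ∑ j, (aeval x (pderiv j (p i)) : ℝ) * w j = 0) →
      w ∈ Submodule.span ℝ {u | ∃ k, u = (C k).tangent x}}

/-- The family is integral at `x` for `r`: the curves are rational, or the curve at `x` is singular,
or its invariant `j = c₄³ / Δ` is `r`-integral. -/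
def IntegralAt (r : ℕ) (C : Curves p g) (x : Fin N → ℚ) : Prop :=
  RationalFamily C ∨ (jacobian (C.quartic x)).Δ = 0 ∨
    padicNorm r ((jacobian (C.quartic x)).c₄ ^ 3 / (jacobian (C.quartic x)).Δ) ≤ 1

lemma region_eq [Fintype κ] (C : κ → Curves p g) : region C = VV C := by
  rw [vv_span]
  rfl

end families

section covers

variable {n : ℕ}

/-- The invariant `I = 12 q₀ q₄ - 3 q₁ q₃ + q₂²`. -/
def invI (q : Polynomial ℚ) : ℚ :=
  12 * q.coeff 0 * q.coeff 4 - 3 * q.coeff 1 * q.coeff 3 + q.coeff 2 ^ 2

/-- The invariant `J = 72 q₀ q₂ q₄ + 9 q₁ q₂ q₃ - 27 q₀ q₃² - 27 q₁² q₄ - 2 q₂³`. -/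
def invJ (q : Polynomial ℚ) : ℚ :=
  72 * q.coeff 0 * q.coeff 2 * q.coeff 4 + 9 * q.coeff 1 * q.coeff 2 * q.coeff 3 -
    27 * q.coeff 0 * q.coeff 3 ^ 2 - 27 * q.coeff 1 ^ 2 * q.coeff 4 - 2 * q.coeff 2 ^ 3

/-- The coefficient `g = 3 q₁² - 8 q₀ q₂` of a covariant. -/
def covG (q : Polynomial ℚ) : ℚ := 3 * q.coeff 1 ^ 2 - 8 * q.coeff 0 * q.coeff 2

/-- The explicit condition of nondegeneracy for the invariants `j = 0` and `j = 1728`. -/
def Good (q : Polynomial ℚ) : Prop :=
  (invI q = 0 ∧ invJ q ≠ 0 ∧ covG q ≠ 0 ∧ covG q ^ 3 ≠ 64 * q.coeff 0 ^ 3 * invJ q ∧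
    covG q ^ 3 ≠ -512 * q.coeff 0 ^ 3 * invJ q ∧ covG q ^ 3 ≠ 256 * q.coeff 0 ^ 3 * invJ q) ∨
  (invJ q = 0 ∧ invI q ≠ 0 ∧ covG q ≠ 0 ∧ covG q ^ 2 ≠ 48 * q.coeff 0 ^ 2 * invI q ∧
    covG q ^ 2 ≠ -48 * q.coeff 0 ^ 2 * invI q)

/-- The polynomial `f(z + t e_i)` in `t`. -/
noncomputable def restriction (f : MvPolynomial (Fin n) ℚ) (z : Fin n → ℚ) (i : Fin n) :
    Polynomial ℚ :=
  aeval (fun k => Polynomial.C (z k) +
    Polynomial.C ((Pi.single i 1 : Fin n → ℚ) k) * Polynomial.X) f

/-- The polynomial `f` has degree at most `d` on all lines parallel to the axis number `i`. -/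
def DegreeAtMost (d : ℕ) (f : MvPolynomial (Fin n) ℚ) (i : Fin n) : Prop :=
  ∀ z : Fin n → ℚ, (restriction f z i).natDegree ≤ d

/-- At the rational points `z` at which `f(z)` is a nonzero square, each polynomial `f(z + t e_i)`
has one of the invariants `I` and `J` equal to zero, unless the degree of `f` in `z_i` is at most
two. -/
def SpecialInvariants (f : MvPolynomial (Fin n) ℚ) : Prop :=
  ∀ z : Fin n → ℚ, (∃ w : ℚ, w ≠ 0 ∧ w ^ 2 = eval z f) → ∀ i,
    DegreeAtMost 2 f i ∨ invI (restriction f z i) = 0 ∨ invJ (restriction f z i) = 0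

/-- The rational points `(w, z)` of the variety `w² = f(z)` with `w ≠ 0`, such that for each `i` the
degree of `f` in `z_i` is at most two or `f(z + t e_i)` is good. The coordinate `0` is `w`. -/
def goodPoints (f : MvPolynomial (Fin n) ℚ) : Set (Fin (n + 1) → ℚ) :=
  {u | u 0 ≠ 0 ∧ u 0 ^ 2 = eval (fun k => u k.succ) f ∧
    ∀ i, DegreeAtMost 2 f i ∨ Good (restriction f (fun k => u k.succ) i)}

end covers

/-- **Families of curves of genus one with integral invariants.** -/
theorem result :
    -- (1) families with `r`-integral invariants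
    (∀ (r : ℕ), r.Prime → 5 ≤ r → ∀ (N c : ℕ) (p : Fin c → MvPolynomial (Fin N) ℚ)
      (g : MvPolynomial (Fin N) ℚ) (κ : Type) [Finite κ] (C : κ → Curves p g),
      ∃ G : κ → MvPolynomial (Fin N) ℚ,
        (∀ (k : κ) (u : Fin N → ℚ), RealPt p g (toR u) → (C k).Ok0 (toR u) →
          IntegralAt r (C k) u → (NondegAt (C k) u ↔ eval u (G k) ≠ 0)) ∧
        ((∀ u : Fin N → ℚ, toR u ∈ region C → ∀ k, IntegralAt r (C k) u) →
          Semialgebraic (closure {x : Fin N → ℝ | ∃ u : Fin N → ℚ, toR u ∈ region C ∧
            (∀ k, eval u (G k) ≠ 0) ∧ x = toR u}) ∧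
          ∀ U : Set (Fin N → ℝ), U ⊆ region C → IsPreconnected U →
            U ⊆ closure {x : Fin N → ℝ | ∃ u : Fin N → ℚ, toR u ∈ region C ∧
              (∀ k, eval u (G k) ≠ 0) ∧ x = toR u} ∨
            Disjoint U (closure {x : Fin N → ℝ | ∃ u : Fin N → ℚ, toR u ∈ region C ∧
              (∀ k, eval u (G k) ≠ 0) ∧ x = toR u}))) ∧
    -- (2) double covers with fibres of the invariants 0 and 1728
    ((∀ q : Polynomial ℚ, (∃ w : ℚ, w ≠ 0 ∧ w ^ 2 = q.coeff 0) → (invI q = 0 ∨ invJ q = 0) →
        (InfiniteOrder q ↔ Good q)) ∧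
      ∀ (n : ℕ) (f : MvPolynomial (Fin n) ℚ), (∀ i, DegreeAtMost 4 f i) → SpecialInvariants f →
        Semialgebraic (closure {x : Fin (n + 1) → ℝ | ∃ u ∈ goodPoints f, x = toR u}) ∧
        ∀ U : Set (Fin (n + 1) → ℝ),
          (∀ x ∈ U, x 0 ≠ 0 ∧ x 0 ^ 2 = aeval (fun k => x k.succ) f) → IsPreconnected U →
          U ⊆ closure {x : Fin (n + 1) → ℝ | ∃ u ∈ goodPoints f, x = toR u} ∨
          Disjoint U (closure {x : Fin (n + 1) → ℝ | ∃ u ∈ goodPoints f, x = toR u})) ∧
    -- (3) polynomials with two exponents for each variable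
    (∀ (n : ℕ) (f : MvPolynomial (Fin n) ℚ), (∀ i, (∀ m ∈ f.support, m i ≤ 2) ∨
        ∃ a b : ℕ, a ≤ 1 ∧ (b = 3 ∨ b = 4) ∧ ∀ m ∈ f.support, m i = a ∨ m i = b) →
      (∀ i, DegreeAtMost 4 f i) ∧ SpecialInvariants f) := by
  refine ⟨?_, ⟨?_, ?_⟩, ?_⟩
  · intro r hr h5 N c p g κ _ C
    have : Fintype κ := Fintype.ofFinite κ
    have : Fact r.Prime := ⟨hr⟩
    classical
    obtain ⟨M, hM⟩ := inf_iff_tor r h5
    let G : κ → MvPolynomial (Fin N) ℚ := fun k =>
      if RationalFamily (C k) then 1 else Pool.Agent.Y718.X.Db (C k).qq * (C k).tor M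
    have key : ∀ (k : κ) (u : Fin N → ℚ), RealPt p g (toR u) → (C k).Ok0 (toR u) →
        IntegralAt r (C k) u → (NondegAt (C k) u ↔ eval u (G k) ≠ 0) := by
      intro k u hu hok hint
      by_cases hr0 : RationalFamily (C k)
      · have hG : G k = 1 := if_pos hr0
        rw [hG, map_one]
        exact ⟨fun _ => one_ne_zero, fun _ => ⟨hok, Or.inl hr0⟩⟩
      · have hG : G k = Pool.Agent.Y718.X.Db (C k).qq * (C k).tor M := if_neg hr0
        have hw : eval u (C k).w ≠ 0 := by
          have h1 := hok.1
          rw [aeval_toR] at h1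
          exact_mod_cast h1
        rw [hG, ← hM N c p g (C k) u hu hw ?_]
        · constructor
          · rintro ⟨-, h | h⟩
            · exact absurd h hr0
            · exact (Pool.Agent.Y718.X.infO_iff _).1 h
          · exact fun h => ⟨hok, Or.inr ((Pool.Agent.Y718.X.infO_iff _).2 h)⟩
        · intro hD
          rcases hint with h | h | h
          · exact absurd h hr0
          · exact absurd h ((Pool.Agent.Y718.X.jac_Δ _).2 hD)
          · exact (jint_iff r h5 _ hD).1 h
    refine ⟨G, key, fun hint => ?_⟩
    rw [region_eq] at hint ⊢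
    have h1 : {x : Fin N → ℝ | ∃ u : Fin N → ℚ, toR u ∈ VV C ∧
        (∀ k, eval u (G k) ≠ 0) ∧ x = toR u} = rl (NN C) := by
      ext x
      constructor
      · rintro ⟨u, hu, hk, rfl⟩
        refine ⟨u, ⟨hu, fun k => ?_⟩, rfl⟩
        have h2 := (key k u hu.1 (hu.2.2.1 k) (hint u hu k)).2 (hk k)
        exact h2.2.imp_right fun h => (Pool.Agent.Y718.X.infO_iff _).1 h
      · rintro ⟨u, ⟨hu, hk⟩, rfl⟩
        refine ⟨u, hu, fun k => ?_, rfl⟩
        exact (key k u hu.1 (hu.2.2.1 k) (hint u hu k)).1 ⟨hu.2.2.1 k,
          (hk k).imp_right fun h => (Pool.Agent.Y718.X.infO_iff _).2 h⟩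
    rw [h1]
    exact ⟨SA.frozen (sa_cl C (stable_all C)), fun U hU hUc => conn C (stable_all C) hU hUc⟩
  · intro q hq hIJ
    have e : InfiniteOrder q ↔ Pool.Agent.Y718.X.Inf q := Pool.Agent.Y718.X.infO_iff q
    rw [e]
    exact ⟨fun h => inf_gd hq hIJ h, fun h => gd_inf hq h⟩
  · intro n f h4 hs
    have e : goodPoints f = gp f := rfl
    have e2 : gp f = Pool.Agent.Y718.X.dcX f := gp_eq hs
    have e3 : {x : Fin (n + 1) → ℝ | ∃ u ∈ goodPoints f, x = toR u} =
        rl (Pool.Agent.Y718.X.dcX f) := by
      rw [e, e2]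
      rfl
    rw [e3]
    exact ⟨SA.frozen (Pool.Agent.Y718.X.dcX_SA f h4), fun U hU hUc => dcX_mazur f h4 U hU hUc⟩
  · intro n f h
    have h1 := ex_binomial h
    exact ⟨fun i => (h1 i).1, fun z _ i => (h1 i).2.imp_right fun h2 => h2 z⟩

end Pool.Agent.Results.MP_42de19_nt.IntegralInvariants
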