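import Pool.Agent.D0H62.IT.Out
import Pool.Agent.D0H62.IT.Sm4

/-!
# The semialgebraic form of Mazur's conjecture for systems of quadrics with coefficients modulo
squares

A polynomial `h` over `ℚ` in `n` variables is called admissible, if for each rational number `d` the
closure in `ℝⁿ` of the set of the rational points at which `h` is `d` times a nonzero square is
semialgebraic over `ℚ`, and if only finitely many subsets of `ℝⁿ` occur as such closures, for all `d`
together. (So there are only finitely many possibilities for all the infinitely many twists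
`d w² = h(z)`.) A subset `Z` of `ℝⁿ` is exceptional for `h`, if it contains the zeros of `h`, and all
these closures are open outside of `Z`.

(1) Each polynomial of degree at most four in one of the variables `x_i` is admissible, with an
exceptional set given by finitely many values of `x_i`. There is no condition on the curves
`d w² = f(t)` of genus at most one.

(2) A polynomial of degree at most two in each of the variables is admissible, if its total degree
is at most three, or if the closure of the set of its rational zeros is semialgebraic over `ℚ`. The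
set of its zeros is exceptional.

(3) The polynomial `F(z₁, …, 1, …, z_n)` for a smooth quartic form `F` in `n + 1 ≥ 3` variables is
admissible, if the closure of the set of its rational zeros is semialgebraic over `ℚ`, and its zeros
with finitely many additional points are an exceptional set.

Let `h₁, …, h_m` be admissible polynomials in separate variables (each variable occurs in at most
one of them), and let `D ⊆ ℚᵐ` be an arbitrary set which is invariant under multiplication of the
coordinates by nonzero squares.

(4) The closure of the set of the rational points `z` with `(h₁(z), …, h_m(z)) ∈ D` is semialgebraic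
over `ℚ`. For all the sets `D` together only finitely many closures occur.

(5) The same holds for the closure of the set of all rational points `(Y, z)` of the system of
diagonal quadrics `∑_s c_js ∏_b h_b(z)^e_jsb Y_js² = c_j ∏_b h_b(z)^e_jb` (`j = 1, …, l`), for
arbitrary rational coefficients and exponents, with `(h₁(z), …, h_m(z)) ∈ D`, and for the closure of
the set of the values of rational functions at these points. A connected set of real points of the
system with `z` outside of exceptional sets of the `h_b`, which are nonsingular in the fibres of the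
projection to the `z`-space, is contained in the closure, or disjoint from it.

Examples (with `D = ℚᵐ`, and polynomials `f_i` in one variable of degree at most four, or of degree
at most two in each of several variables): the varieties `w² = c f₁(x₁) ⋯ f_n(x_n)`, in particular
the Kummer varieties of products of curves of genus one of arbitrary dimension, and their covers
`w_s² = c_s ∏ f_i(x_i)^(e_si)` (all quotients of products of such curves by groups of sign changes);
the conic bundles `f₁(x₁) Y₁² + f₂(x₂) Y₂² = f₀(x₀)` over `(ℙ¹)³`, where there are Brauer-Manin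
obstructions to weak approximation, and `∑ f_i(x_i) Y_i² = 0` with any number of variables. Examples
for (4) are the sets of the `z` for which the quaternion algebra `(f₁(x₁), f₂(x₂))` is isomorphic to
a given one, or `(f₁(x₁), f₂(x₂))` and `(f₃(x₃), f₄(x₄))` are isomorphic.

The proof of (1) uses that for a polynomial `f` of degree at most four with simple zeros and a
rational number `t` outside of a finite set which depends only on `f`, the two rational points over
`t` of the curve `d w² = f(x)`, if they exist, have a difference of infinite order, for all `d` at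
the same time; so the closure for `d` is open outside of the zeros of `f` and of this finite set.
-/

set_option autoImplicit false

namespace Pool.Agent.Results.MP_42de19_nt.SquareClasses

open MvPolynomial Pool.Agent.D0H62.IT Pool.Agent.TH729.SQ Pool.Agent.H581R2

/-- Semialgebraic sets defined over `ℚ`: the finite unions of sets
`{p = 0, q₁ > 0, …, q_k > 0}`, where `p` and the `qᵢ` are polynomials with rational
coefficients. -/
def Semialgebraic {σ : Type} (S : Set (σ → ℝ)) : Prop :=
  ∃ (m : ℕ) (P : Fin m → MvPolynomial σ ℚ) (G : Fin m → Finset (MvPolynomial σ ℚ)),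
    S = {x : σ → ℝ | ∃ j : Fin m, (aeval x (P j) : ℝ) = 0 ∧ ∀ g ∈ G j, (0 : ℝ) < aeval x g}

/-- The closure in the real space of a set of rational points. -/
def realClosure {σ : Type} (A : Set (σ → ℚ)) : Set (σ → ℝ) :=
  closure {x : σ → ℝ | ∃ u ∈ A, x = fun i => (u i : ℝ)}

/-- The rational points at which `h` is `d` times a nonzero square. -/
def squareClass {n : ℕ} (h : MvPolynomial (Fin n) ℚ) (d : ℚ) : Set (Fin n → ℚ) :=
  {z | ∃ w : ℚ, w ≠ 0 ∧ eval z h = d * w ^ 2}

/-- The closures of the sets `squareClass h d`, `d ∈ ℚ`, are semialgebraic, and there are only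
finitely many of them. -/
def Admissible {n : ℕ} (h : MvPolynomial (Fin n) ℚ) : Prop :=
  (∀ d : ℚ, Semialgebraic (realClosure (squareClass h d))) ∧
    {W | ∃ d : ℚ, W = realClosure (squareClass h d)}.Finite

/-- The set `Z` contains the real zeros of `h`, and the closures of the sets `squareClass h d`,
`d ∈ ℚ`, are open outside of `Z`: they are neighbourhoods of their points outside of `Z`. -/
def Exceptional {n : ℕ} (h : MvPolynomial (Fin n) ℚ) (Z : Set (Fin n → ℝ)) : Prop :=
  (∀ x : Fin n → ℝ, (aeval x h : ℝ) = 0 → x ∈ Z) ∧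
  ∀ d : ℚ, ∀ x ∈ realClosure (squareClass h d), x ∉ Z → realClosure (squareClass h d) ∈ nhds x

/-- The partial derivatives of the form have no common zero over the complex numbers besides the
origin. -/
def SmoothForm {n : ℕ} (F : MvPolynomial (Fin (n + 1)) ℚ) : Prop :=
  ∀ y : Fin (n + 1) → ℂ, (∀ i, aeval y (pderiv i F) = 0) → y = 0

/-- The polynomial `F(z₁, …, z_p, 1, z_{p+1}, …, z_n)`. -/
noncomputable def dehomogenize {n : ℕ} (F : MvPolynomial (Fin (n + 1)) ℚ) (p : Fin (n + 1)) :
    MvPolynomial (Fin n) ℚ :=
  aeval (p.insertNth (α := fun _ => MvPolynomial (Fin n) ℚ) 1 X) F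

variable {n m : ℕ}

/-- No variable occurs in two of the polynomials. -/
def Separate (h : Fin m → MvPolynomial (Fin n) ℚ) : Prop :=
  ∀ b b' : Fin m, b ≠ b' → ∀ i : Fin n, (h b).degreeOf i = 0 ∨ (h b').degreeOf i = 0

/-- The set is invariant under multiplication of the coordinates by nonzero squares. -/
def SquareInvariant (D : Set (Fin m → ℚ)) : Prop :=
  ∀ δ ∈ D, ∀ u : Fin m → ℚ, (∀ b, u b ≠ 0) → (fun b => δ b * u b ^ 2) ∈ D

/-- The rational points `z` with `(h₁(z), …, h_m(z)) ∈ D`. -/
def valuesIn (h : Fin m → MvPolynomial (Fin n) ℚ) (D : Set (Fin m → ℚ)) : Set (Fin n → ℚ) :=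
  {z | (fun b => eval z (h b)) ∈ D}

/-- The rational points `(Y, z)` of the system of quadrics
`∑_s c_js ∏_b h_b(z)^e_jsb Y_js² = c₀_j ∏_b h_b(z)^e₀_jb` with `(h₁(z), …, h_m(z)) ∈ D`. -/
def points {l : ℕ} {k : Fin l → ℕ} (h : Fin m → MvPolynomial (Fin n) ℚ) (D : Set (Fin m → ℚ))
    (c : ∀ j, Fin (k j) → ℚ) (e : ∀ j, Fin (k j) → Fin m → ℕ) (c₀ : Fin l → ℚ)
    (e₀ : Fin l → Fin m → ℕ) : Set ((Σ j, Fin (k j)) ⊕ Fin n → ℚ) :=
  {v | (fun i => v (Sum.inr i)) ∈ valuesIn h D ∧ ∀ j,
    ∑ s, c j s * (∏ b, eval (fun i => v (Sum.inr i)) (h b) ^ e j s b) * v (Sum.inl ⟨j, s⟩) ^ 2 =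
      c₀ j * ∏ b, eval (fun i => v (Sum.inr i)) (h b) ^ e₀ j b}

lemma admissible_iff (h : MvPolynomial (Fin n) ℚ) : Admissible h ↔ Fam h := by
  constructor
  · rintro ⟨h1, h2⟩
    exact ⟨h2, fun d => sa_frozen (h1 d)⟩
  · rintro ⟨h1, h2⟩
    exact ⟨fun d => frozen' (h2 d), h1⟩

/-- **Systems of quadrics with coefficients modulo squares.** -/
theorem result :
    -- (1) polynomials of degree at most four in one variable
    (∀ (n : ℕ) (i : Fin n) (f : Polynomial ℚ), f.natDegree ≤ 4 →
      Admissible (Polynomial.aeval (X i : MvPolynomial (Fin n) ℚ) f) ∧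
      (f ≠ 0 → ∃ T : Set ℝ, T.Finite ∧
        Exceptional (Polynomial.aeval (X i : MvPolynomial (Fin n) ℚ) f) {x | x i ∈ T})) ∧
    -- (2) polynomials of degree at most two in each variable
    (∀ (n : ℕ) (h : MvPolynomial (Fin n) ℚ), (∀ i, h.degreeOf i ≤ 2) →
      (h.totalDegree ≤ 3 ∨ Semialgebraic (realClosure {z | eval z h = 0}) → Admissible h) ∧
      Exceptional h {x | (aeval x h : ℝ) = 0}) ∧
    -- (3) smooth quartic forms
    (∀ (n : ℕ) (F : MvPolynomial (Fin (n + 1)) ℚ) (p : Fin (n + 1)), 2 ≤ n → F.IsHomogeneous 4 →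
      SmoothForm F → Semialgebraic (realClosure {z | eval z (dehomogenize F p) = 0}) →
      Admissible (dehomogenize F p) ∧ ∃ T : Set (Fin n → ℝ), T.Finite ∧
        Exceptional (dehomogenize F p) {x | (aeval x (dehomogenize F p) : ℝ) = 0 ∨ x ∈ T}) ∧
    -- (4) arbitrary conditions modulo squares
    (∀ (n m : ℕ) (h : Fin m → MvPolynomial (Fin n) ℚ), Separate h → (∀ b, Admissible (h b)) →
      (∀ D, SquareInvariant D → Semialgebraic (realClosure (valuesIn h D))) ∧
      {W | ∃ D, SquareInvariant D ∧ W = realClosure (valuesIn h D)}.Finite) ∧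
    -- (5) systems of quadrics
    (∀ (n m : ℕ) (h : Fin m → MvPolynomial (Fin n) ℚ), Separate h → (∀ b, Admissible (h b)) →
      ∀ (D : Set (Fin m → ℚ)), SquareInvariant D → ∀ (l : ℕ) (k : Fin l → ℕ)
        (c : ∀ j, Fin (k j) → ℚ) (e : ∀ j, Fin (k j) → Fin m → ℕ) (c₀ : Fin l → ℚ)
        (e₀ : Fin l → Fin m → ℕ),
        -- the closure of the set of the rational points
        Semialgebraic (realClosure (points h D c e c₀ e₀)) ∧
        -- values of rational functions
        (∀ (N : ℕ) (a : Fin N → MvPolynomial ((Σ j, Fin (k j)) ⊕ Fin n) ℚ)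
          (b : MvPolynomial ((Σ j, Fin (k j)) ⊕ Fin n) ℚ),
          Semialgebraic (realClosure {y : Fin N → ℚ | ∃ v ∈ points h D c e c₀ e₀,
            eval v b ≠ 0 ∧ ∀ i, y i = eval v (a i) / eval v b})) ∧
        -- connected sets of real points
        (∀ Z : Fin m → Set (Fin n → ℝ), (∀ b, Exceptional (h b) (Z b)) →
          ∀ U : Set ((Σ j, Fin (k j)) ⊕ Fin n → ℝ), IsPreconnected U →
          (∀ x ∈ U, (∀ b, (fun i => x (Sum.inr i)) ∉ Z b) ∧ ∀ j,
            ∑ s, c j s * (∏ b, (aeval (fun i => x (Sum.inr i)) (h b) : ℝ) ^ e j s b) *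
              x (Sum.inl ⟨j, s⟩) ^ 2 =
              c₀ j * ∏ b, (aeval (fun i => x (Sum.inr i)) (h b) : ℝ) ^ e₀ j b ∧
            ∃ s, (c j s : ℝ) * x (Sum.inl ⟨j, s⟩) ≠ 0) →
          U ⊆ realClosure (points h D c e c₀ e₀) ∨
            Disjoint U (realClosure (points h D c e c₀ e₀)))) := by
  refine ⟨?_, ?_, ?_, ?_, ?_⟩
  · intro n i f hf
    rw [admissible_iff]
    refine ⟨adm_cls (Or.inl ⟨i, f, hf, rfl⟩), fun hf0 => ?_⟩
    obtain ⟨T, hT, h⟩ := ex_one (i := i) hf0 hf
    exact ⟨T, hT, h⟩
  · intro n h h2
    refine ⟨fun hz => ?_, ex_two h2⟩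
    rw [admissible_iff]
    refine adm_cls (Or.inr ⟨h2, ?_⟩)
    rcases hz with hz | hz
    · exact zeros_SA hz
    · exact sa_frozen hz
  · intro n F p hn hF hsm hz
    obtain ⟨h1, T, hT, h2⟩ := adm_quartic hF (smooth_form hsm) hn p (sa_frozen hz)
    exact ⟨(admissible_iff _).2 h1, T, hT, h2⟩
  · intro n m h hs hA
    obtain ⟨blk, hb⟩ := exists_blk hs
    obtain ⟨h1, h2⟩ := boxes blk hb (fun b => (admissible_iff _).1 (hA b))
    exact ⟨fun D hD => frozen' (h2 D hD), h1⟩
  · intro n m h hs hA D hD l k c e c₀ e₀
    obtain ⟨blk, hb⟩ := exists_blk hs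
    have h1 := systems blk hb (fun b => (admissible_iff _).1 (hA b)) c e c₀ e₀ D hD
    refine ⟨frozen' h1, fun N a b => ?_, fun Z hZ U hU hUx => ?_⟩
    swap
    · exact sys_conn blk hb (fun b => (admissible_iff _).1 (hA b)) hZ c e c₀ e₀ D hD U hU
        (fun x hx => (hUx x hx).1) (fun x hx j => ((hUx x hx).2 j).1)
        (fun x hx j => ((hUx x hx).2 j).2)
    have h2 := img_sa h1 a b
    have h3 : closure {y : Fin N → ℝ | ∃ u ∈ points h D c e c₀ e₀, eval u b ≠ 0 ∧ ∀ k, y k =
        ((eval u (a k) / eval u b : ℚ) : ℝ)} = realClosure {y : Fin N → ℚ |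
        ∃ v ∈ points h D c e c₀ e₀, eval v b ≠ 0 ∧ ∀ i, y i = eval v (a i) / eval v b} := by
      unfold realClosure
      congr 1
      ext y
      constructor
      · rintro ⟨u, hu, hub, hy⟩
        exact ⟨fun i => eval u (a i) / eval u b, ⟨u, hu, hub, fun i => rfl⟩, funext hy⟩
      · rintro ⟨_, ⟨u, hu, hub, hy⟩, rfl⟩
        exact ⟨u, hu, hub, fun k => congrArg (fun q : ℚ => (q : ℝ)) (hy k)⟩
    rw [← h3]
    exact frozen' h2

end Pool.Agent.Results.MP_42de19_nt.SquareClasses
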